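import Pool.Agent.Helper58.R3.Stmts

/-!
# KK: the descent (MP_7ef5a1_co)
-/

set_option autoImplicit false
open Classical

namespace Pool.Agent.Helper58.R3

theorem kk_mem {m : ℕ} (H : SimpleGraph (Fin m)) (F : Finset (Fin m)) (x : Fin m) :
    x ∈ nb H F ↔ x ∉ F ∧ ∃ y ∈ F, H.Adj y x := by
  unfold nb
  rw [Finset.mem_filter]
  exact ⟨fun h => h.2, fun h => ⟨Finset.mem_univ _, h⟩⟩

theorem kk_third (s : Fin 3) : ∃ t : Fin 3, t ≠ s := by
  fin_cases s
  · exact ⟨1, by decide⟩
  · exact ⟨0, by decide⟩
  · exact ⟨0, by decide⟩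

theorem kk_third2 (s t : Fin 3) : ∃ u : Fin 3, u ≠ s ∧ u ≠ t := by
  fin_cases s <;> fin_cases t <;> decide

theorem st_KK (hAV : ST_AV) : ST_KK := by
  intro m H v0 A X L D Φ i a hC n hn K j s Θ hK hKn hs hb
  obtain ⟨b, hbdef⟩ : ∃ b, b = Φ (i j) (a j) := ⟨_, rfl⟩
  obtain ⟨T, hT⟩ : ∃ T : Fin m → Fin m, T = fun x => Φ (i j) (Θ x) := ⟨_, rfl⟩
  have hTx : ∀ x, Φ (i j) (Θ x) = T x := by
    intro x
    rw [hT]
  rw [← hbdef] at hb
  -- the values of `Θ`
  have hΘnb : ∀ x ∈ nb H K, Θ x = a j ∨ (Θ x ∈ D (i j) ∧ Θ x ≠ v0) := hK.ND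
  have hΘ : ∀ x ∈ K ∪ nb H K, Θ x ∈ L (i j) ∪ D (i j) := by
    intro x hx
    rw [Finset.mem_union] at hx ⊢
    rcases hx with hx | hx
    · exact Or.inl (hK.KL x hx).1
    · rcases hΘnb x hx with h | h
      · rw [h]
        exact Or.inl (hC.aL j)
      · exact Or.inr h.1
  have hE : Emb H K T := by
    constructor
    · intro x hx y hy h
      rw [hT] at h
      exact hK.emb.inj x hx y hy (hC.c.inj (i j) _ (hΘ x hx) _ (hΘ y hy) h)
    · intro x hx y hy h
      rw [hT]
      exact hC.c.hom (i j) _ (hΘ x hx) _ (hΘ y hy) (hK.emb.hom x hx y hy h)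
  have hTv : ∀ x ∈ K ∪ nb H K, T x ≠ v0 := by
    intro x hx
    rw [hT]
    have h1 := hΘ x hx
    rw [Finset.mem_union] at h1
    rcases h1 with h1 | h1
    · exact (hC.c.ΦL (i j) _ h1).1
    · have h2 := hC.c.ΦD (i j) _ h1
      intro h3
      have h4 : Φ (i j) (Θ x) = v0 := h3
      rw [h4] at h2
      exact h2.ne rfl
  have hv0D : v0 ∈ D (i j) := hC.vD j
  have hD3 : (D (i j)).card = 3 := hC.D3 (i j) ⟨a j, hC.aL j⟩
  have haX : ∀ t, a t ∉ X := fun t => hC.c.LX (i t) (a t) (hC.aL t)
  -- the values of `T` on the boundary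
  have hTnb : ∀ x ∈ nb H K, T x = b ∨ ∃ t, t ≠ s ∧ T x = a t := by
    intro x hx
    rcases hΘnb x hx with h | ⟨h1, h2⟩
    · left
      rw [hT, hbdef]
      show Φ (i j) (Θ x) = Φ (i j) (a j)
      rw [h]
    · right
      have h3 := hC.c.ΦD (i j) _ h1
      obtain ⟨t, ht⟩ := (hC.Nv _).1 h3
      refine ⟨t, ?_, by rw [hT]; exact ht⟩
      rintro rfl
      apply h2
      refine hC.c.inj (i j) _ (Finset.mem_union_right _ h1) _ (Finset.mem_union_right _ hv0D) ?_
      rw [ht, hs]
  -- `T` maps the boundary onto the three vertices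
  have himg : ((nb H K).image T).card = 3 := by
    rw [Finset.card_image_of_injOn, hK.c3]
    intro x hx y hy h
    exact hE.inj x (Finset.mem_union_right _ hx) y (Finset.mem_union_right _ hy) h
  have hW : (nb H K).image T = insert b ((Finset.univ.erase s).image a) := by
    refine Finset.eq_of_subset_of_card_le ?_ ?_
    · intro z hz
      obtain ⟨x, hx, rfl⟩ := Finset.mem_image.1 hz
      rw [Finset.mem_insert]
      rcases hTnb x hx with h | ⟨t, ht, h⟩
      · exact Or.inl h
      · right
        rw [h]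
        exact Finset.mem_image_of_mem a (Finset.mem_erase.2 ⟨ht, Finset.mem_univ t⟩)
    · rw [himg]
      refine (Finset.card_insert_le _ _).trans ?_
      have h1 : ((Finset.univ.erase s).image a).card ≤ (Finset.univ.erase s).card :=
        Finset.card_image_le
      have h2 : (Finset.univ.erase s : Finset (Fin 3)).card = 2 := by
        rw [Finset.card_erase_of_mem (Finset.mem_univ s)]
        rfl
      omega
  have hb' : ∃ x ∈ nb H K, T x = b := by
    have h1 : b ∈ (nb H K).image T := by
      rw [hW]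
      exact Finset.mem_insert_self _ _
    exact Finset.mem_image.1 h1
  have ha' : ∀ t, t ≠ s → ∃ x ∈ nb H K, T x = a t := by
    intro t ht
    have h1 : a t ∈ (nb H K).image T := by
      rw [hW]
      exact Finset.mem_insert_of_mem
        (Finset.mem_image_of_mem a (Finset.mem_erase.2 ⟨ht, Finset.mem_univ t⟩))
    exact Finset.mem_image.1 h1
  simp only [hTx, ← hbdef]
  refine ⟨?_, hb', hE.hom, ?_⟩
  · -- first part
    intro l hl
    refine hAV m H v0 A X L D Φ i a hC n hn K T l hKn hK.c3 hE ?_ ?_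
    · intro x hx h
      rcases hTnb x hx with h1 | ⟨t, ht, h1⟩
      · rw [h1] at h
        exact hC.c.LX l b h hb
      · rw [h1] at h
        exact hl t ht (hC.c.LL l (i t) (a t) h (hC.aL t))
    · obtain ⟨t, ht⟩ := kk_third s
      obtain ⟨x, hx, h1⟩ := ha' t ht
      refine ⟨x, hx, ?_⟩
      rw [h1]
      exact haX t
  · -- second part
    intro t ht hne
    obtain ⟨V, hV⟩ : ∃ V, V = K.filter (fun x => T x ∈ L (i t)) := ⟨_, rfl⟩
    rw [← hV] at hne ⊢
    have hVK : V ⊆ K := by
      rw [hV]
      exact Finset.filter_subset _ _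
    have hVL : ∀ x ∈ V, T x ∈ L (i t) := by
      intro x hx
      rw [hV] at hx
      exact (Finset.mem_filter.1 hx).2
    have hnbV : ∀ x ∈ nb H V, x ∈ K ∪ nb H K := by
      intro x hx
      obtain ⟨h1, y, hy, h2⟩ := (kk_mem H V x).1 hx
      rw [Finset.mem_union]
      by_cases h3 : x ∈ K
      · exact Or.inl h3
      · exact Or.inr ((kk_mem H K x).2 ⟨h3, y, hVK hy, h2⟩)
    have hsub : ∀ x ∈ V ∪ nb H V, x ∈ K ∪ nb H K := by
      intro x hx
      rcases Finset.mem_union.1 hx with h | h
      · exact Finset.mem_union_left _ (hVK h)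
      · exact hnbV x h
    have hEV : Emb H V T :=
      ⟨fun x hx y hy h => hE.inj x (hsub x hx) y (hsub y hy) h,
        fun x hx y hy h => hE.hom x (hsub x hx) y (hsub y hy) h⟩
    have hainj : ∀ t', a t' = a t → t' = t := by
      intro t' h
      have h1 := hC.aL t'
      rw [h] at h1
      exact hC.ii (hC.c.LL (i t') (i t) (a t) h1 (hC.aL t))
    have hND : ∀ x ∈ nb H V, T x = a t ∨ (T x ∈ D (i t) ∧ T x ≠ v0) := by
      intro x hx
      obtain ⟨h1, y, hy, h2⟩ := (kk_mem H V x).1 hx
      have h3 := hE.hom y (Finset.mem_union_left _ (hVK hy)) x (hnbV x hx) h2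
      rcases hC.c.nbL (i t) (T y) (hVL y hy) (T x) h3 with h4 | h4
      · left
        rcases Finset.mem_union.1 (hnbV x hx) with h5 | h5
        · exfalso
          apply h1
          rw [hV]
          exact Finset.mem_filter.2 ⟨h5, h4⟩
        · rcases hTnb x h5 with h6 | ⟨t', _, h6⟩
          · exfalso
            rw [h6] at h4
            exact hC.c.LX (i t) b h4 hb
          · rw [h6] at h4 ⊢
            have h7 := hC.ii (hC.c.LL (i t') (i t) (a t') (hC.aL t') h4)
            rw [h7]
      · exact Or.inr ⟨h4, hTv x (hnbV x hx)⟩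
    obtain ⟨t', ht's, ht't⟩ := kk_third2 s t
    obtain ⟨e, he, hTe⟩ := ha' t' ht's
    have heK : e ∉ K := ((kk_mem H K e).1 he).1
    have heV : e ∉ V := fun h => heK (hVK h)
    have henb : e ∉ nb H V := by
      intro h
      rcases hND e h with h1 | h1
      · rw [hTe] at h1
        exact ht't (hainj t' h1)
      · rw [hTe] at h1
        exact haX t' (hC.c.DX (i t) (a t') h1.1)
    have hc3 : (nb H V).card = 3 := by
      have hge : 3 ≤ (nb H V).card := by
        by_contra hlt
        rcases hC.c.k3 V hne (by omega) e with h | h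
        · exact heV h
        · exact henb h
      have hle : (nb H V).card ≤ 3 := by
        have h1 : ((nb H V).image T).card = (nb H V).card := by
          refine Finset.card_image_of_injOn ?_
          intro x hx y hy h
          exact hEV.inj x (Finset.mem_union_right _ hx) y (Finset.mem_union_right _ hy) h
        have h2 : (nb H V).image T ⊆ insert (a t) ((D (i t)).erase v0) := by
          intro z hz
          obtain ⟨x, hx, rfl⟩ := Finset.mem_image.1 hz
          rw [Finset.mem_insert, Finset.mem_erase]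
          rcases hND x hx with h | h
          · exact Or.inl h
          · exact Or.inr ⟨h.2, h.1⟩
        have h3 := Finset.card_le_card h2
        have h4 := Finset.card_insert_le (a t) ((D (i t)).erase v0)
        have h5 : ((D (i t)).erase v0).card = 2 := by
          rw [Finset.card_erase_of_mem (hC.vD t), hC.D3 (i t) ⟨a t, hC.aL t⟩]
        omega
      omega
    refine ⟨⟨hne, hc3, hEV, ?_, hND⟩, ?_⟩
    · intro x hx
      refine ⟨hVL x hx, ?_⟩
      intro h
      obtain ⟨e', he', hTe'⟩ := ha' t ht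
      have h1 := hE.inj x (Finset.mem_union_left _ (hVK hx)) e' (Finset.mem_union_right _ he')
        (by rw [h, hTe'])
      rw [← h1] at he'
      exact ((kk_mem H K x).1 he').1 (hVK hx)
    · refine Finset.card_lt_card (Finset.ssubset_iff_subset_ne.2 ⟨hVK, ?_⟩)
      intro h
      rw [← h] at he
      exact henb he

end Pool.Agent.Helper58.R3
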